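import Pool.Agent.H261R3.LN.Stmts
import Pool.Agent.H531R3.LH.LineOf

/-! Project LN, task KillStep (helper128). -/

set_option autoImplicit false

namespace Pool.Agent.H261R3.LN

open Pool.Agent.H261R3.LH (Lip1 IsLNR clip clip_nonneg)
open Pool.Agent.H531R3.LH (clip_le_one clip_zero clip_one clip_lip glue glue_floor)

namespace KillStepAux

/-- coordinatewise clipping -/
noncomputable def cl {d : ℕ} (u : Fin d → ℝ) : Fin d → ℝ := fun i => clip (u i)

theorem cl_inCube {d : ℕ} (u : Fin d → ℝ) : InCube (cl u) := fun _ =>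
  ⟨clip_nonneg _, clip_le_one _⟩

theorem clip_of_mem {x : ℝ} (h0 : 0 ≤ x) (h1 : x ≤ 1) : clip x = x := by
  unfold clip
  rw [min_eq_right h1, max_eq_right h0]

theorem cl_of_inCube {d : ℕ} {u : Fin d → ℝ} (h : InCube u) : cl u = u := by
  ext i
  exact clip_of_mem (h i).1 (h i).2

theorem cl_bd {d : ℕ} {u : Fin d → ℝ} (h : Bd u) : Bd (cl u) := by
  obtain ⟨i, hi | hi⟩ := h
  · exact ⟨i, Or.inl (by simp only [cl, hi, clip_zero])⟩
  · exact ⟨i, Or.inr (by simp only [cl, hi, clip_one])⟩

theorem cl_dist {d : ℕ} (u v : Fin d → ℝ) : dist (cl u) (cl v) ≤ dist u v := by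
  refine (dist_pi_le_iff dist_nonneg).2 fun i => ?_
  rw [Real.dist_eq]
  refine (clip_lip _ _).trans ?_
  rw [← Real.dist_eq]
  exact dist_le_pi_dist u v i

theorem cons_dist_left {d : ℕ} (a b : ℝ) (x : Fin d → ℝ) :
    dist (Fin.cons a x : Fin (d + 1) → ℝ) (Fin.cons b x) ≤ |a - b| := by
  refine (dist_pi_le_iff (abs_nonneg _)).2 fun i => ?_
  refine Fin.cases ?_ (fun j => ?_) i
  · simp only [Fin.cons_zero]; rw [Real.dist_eq]
  · simp only [Fin.cons_succ, dist_self]; exact abs_nonneg _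

theorem cons_dist_right {d : ℕ} (a : ℝ) (x y : Fin d → ℝ) :
    dist (Fin.cons a x : Fin (d + 1) → ℝ) (Fin.cons a y) ≤ dist x y := by
  refine (dist_pi_le_iff dist_nonneg).2 fun i => ?_
  refine Fin.cases ?_ (fun j => ?_) i
  · simp only [Fin.cons_zero, dist_self]; exact dist_nonneg
  · simp only [Fin.cons_succ]; exact dist_le_pi_dist x y j

theorem tail_dist {d : ℕ} (x y : Fin (d + 1) → ℝ) : dist (Fin.tail x) (Fin.tail y) ≤ dist x y := by
  refine (dist_pi_le_iff dist_nonneg).2 fun i => ?_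
  exact dist_le_pi_dist x y i.succ

theorem bd_cons_zero {d : ℕ} (a : ℝ) (u : Fin d → ℝ) (h : a = 0 ∨ a = 1) :
    Bd (Fin.cons a u : Fin (d + 1) → ℝ) := ⟨0, by simpa using h⟩

theorem bd_cons_right {d : ℕ} (a : ℝ) (u : Fin d → ℝ) (h : Bd u) :
    Bd (Fin.cons a u : Fin (d + 1) → ℝ) := by
  obtain ⟨i, hi⟩ := h
  exact ⟨i.succ, by simpa using hi⟩

theorem bd_cases {d : ℕ} (w : Fin (d + 1) → ℝ) (h : Bd w) : (w 0 = 0 ∨ w 0 = 1) ∨ Bd (Fin.tail w) := by
  obtain ⟨i, hi⟩ := h
  revert hi
  refine Fin.cases ?_ (fun j => ?_) i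
  · intro hi; exact Or.inl hi
  · intro hi; exact Or.inr ⟨j, hi⟩

variable {S : Type} [MetricSpace S]

theorem LipN.mono {d : ℕ} {C C' : ℝ} {f : (Fin d → ℝ) → S} (h : LipN C f) (hC : C ≤ C') :
    LipN C' f := fun x y =>
  (h x y).trans (mul_le_mul_of_nonneg_right hC dist_nonneg)

end KillStepAux

open KillStepAux in
theorem taskKillStep : TaskKillStep := by
  intro S _ p m q hK1 hK2 C
  obtain ⟨C1, hC1, hK1⟩ := hK1 C
  set L : ℝ := max (max C 0) C1 with hL
  have hL0 : 0 ≤ L := (le_max_right C 0).trans (le_max_left _ _)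
  have hCL : C ≤ L := (le_max_left C 0).trans (le_max_left _ _)
  have hC1L : C1 ≤ L := le_max_right _ _
  obtain ⟨C2, hC2, hK2⟩ := hK2 (4 * L)
  refine ⟨4 * L + 2 * C2, by positivity, fun f hfx hfu hfb => ?_⟩
  have hfx' : ∀ u, LipN L (fun x => f x u) := fun u => LipN.mono (hfx u) hCL
  have hfu' : ∀ x, LipN L (fun u => f x u) := fun x => LipN.mono (hfu x) hCL
  -- homotopies on the walls
  have hw : ∀ k : ℤ, ∃ g : ℝ → (Fin m → ℝ) → (Fin q → ℝ) → S,
      Hmt C1 p (fun x' u => f (Fin.cons (k : ℝ) x') u) g ∧ ∀ x u, g 1 x u = p := by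
    intro k
    refine hK1 _ ?_ ?_ ?_
    · intro u x y
      have h1 := hfx u (Fin.cons (k : ℝ) x) (Fin.cons (k : ℝ) y)
      have h2 := cons_dist_right (k : ℝ) x y
      have h3 : dist (Fin.cons (k : ℝ) x : Fin (m + 1) → ℝ) (Fin.cons (k : ℝ) y) = dist x y := by
        refine le_antisymm h2 ?_
        have h4 := tail_dist (Fin.cons (k : ℝ) x : Fin (m + 1) → ℝ) (Fin.cons (k : ℝ) y)
        simpa using h4
      rw [h3] at h1
      exact h1
    · intro x; exact hfu _
    · intro x u hu; exact hfb _ _ hu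
  choose g hg hg1 using hw
  have hgx : ∀ k t u, LipN L (fun x => g k t x u) := fun k t u => LipN.mono ((hg k).lx t u) hC1L
  have hgu : ∀ k t x, LipN L (fun u => g k t x u) := fun k t x => LipN.mono ((hg k).lu t x) hC1L
  have hgt : ∀ k x u, Lip1 L (fun t => g k t x u) := fun k x u a b =>
    ((hg k).lt x u a b).trans (mul_le_mul_of_nonneg_right hC1L (abs_nonneg _))
  -- the extended cell
  set e : ℤ → ℝ → (Fin m → ℝ) → (Fin q → ℝ) → S := fun k v x' u =>
    if v ≤ 0 then g k (clip (-v)) x' (cl u) else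
      (if v ≤ 1 then f (Fin.cons ((k : ℝ) + v) x') (cl u) else g (k + 1) (clip (v - 1)) x' (cl u))
    with he
  have hg0 : ∀ k x' u, g k 0 x' (cl u) = f (Fin.cons (k : ℝ) x') (cl u) := fun k x' u =>
    (hg k).start x' (cl u) (cl_inCube u)
  have hev : ∀ k x' u, Lip1 L (fun v => e k v x' u) := by
    intro k x' u
    have g1 : Lip1 L (fun v : ℝ => if v ≤ 1 then f (Fin.cons ((k : ℝ) + v) x') (cl u)
        else g (k + 1) (clip (v - 1)) x' (cl u)) := by
      refine glue 1 ?_ ?_ ?_
      · intro x y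
        refine (hfx' (cl u) (Fin.cons ((k : ℝ) + x) x') (Fin.cons ((k : ℝ) + y) x')).trans ?_
        refine mul_le_mul_of_nonneg_left ?_ hL0
        refine (cons_dist_left _ _ _).trans (le_of_eq ?_)
        congr 1; ring
      · intro x y
        refine (hgt (k + 1) x' (cl u) _ _).trans ?_
        refine mul_le_mul_of_nonneg_left ?_ hL0
        refine (clip_lip _ _).trans (le_of_eq ?_)
        congr 1; ring
      · rw [sub_self, clip_zero, hg0]; push_cast; rfl
    refine glue 0 ?_ g1 ?_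
    · intro x y
      refine (hgt k x' (cl u) _ _).trans ?_
      refine mul_le_mul_of_nonneg_left ?_ hL0
      refine (clip_lip _ _).trans (le_of_eq ?_)
      rw [show -x - -y = -(x - y) by ring, abs_neg]
    · simp only [neg_zero, zero_le_one, if_true, add_zero, clip_zero]
      exact hg0 k x' u
  have hex : ∀ k v u, LipN L (fun x' => e k v x' u) := by
    intro k v u x y
    simp only [he]
    split_ifs
    · exact hgx k _ _ x y
    · refine (hfx' (cl u) (Fin.cons ((k : ℝ) + v) x) (Fin.cons ((k : ℝ) + v) y)).trans ?_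
      exact mul_le_mul_of_nonneg_left (cons_dist_right _ _ _) hL0
    · exact hgx (k + 1) _ _ x y
  have heu : ∀ k v x', LipN L (fun u => e k v x' u) := by
    intro k v x' u w
    simp only [he]
    split_ifs
    · exact (hgu k _ x' (cl u) (cl w)).trans (mul_le_mul_of_nonneg_left (cl_dist u w) hL0)
    · exact (hfu' _ (cl u) (cl w)).trans (mul_le_mul_of_nonneg_left (cl_dist u w) hL0)
    · exact (hgu (k + 1) _ x' (cl u) (cl w)).trans (mul_le_mul_of_nonneg_left (cl_dist u w) hL0)
  have heb : ∀ k v x' u, Bd u → e k v x' u = p := by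
    intro k v x' u hu
    simp only [he]
    split_ifs
    · exact (hg k).bd _ _ _ (cl_bd hu)
    · exact hfb _ _ (cl_bd hu)
    · exact (hg (k + 1)).bd _ _ _ (cl_bd hu)
  have he_neg : ∀ k v x' u, 0 ≤ v → e k (-v) x' u = g k (clip v) x' (cl u) := by
    intro k v x' u hv
    simp only [he]
    rw [if_pos (by linarith), neg_neg]
  have he_mid : ∀ (k : ℤ) (v : ℝ) x' u, 0 ≤ v → v ≤ 1 →
      e k v x' u = f (Fin.cons ((k : ℝ) + v) x') (cl u) := by
    intro k v x' u hv hv1
    simp only [he]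
    split_ifs with h1
    · have : v = 0 := le_antisymm h1 hv
      subst this
      rw [neg_zero, clip_zero, hg0, add_zero]
    · rfl
  have he_pos : ∀ k v x' u, 0 ≤ v → e k (1 + v) x' u = g (k + 1) (clip v) x' (cl u) := by
    intro k v x' u hv
    simp only [he]
    rw [if_neg (by linarith)]
    split_ifs with h1
    · have : v = 0 := by linarith
      subst this
      rw [clip_zero, hg0]; push_cast; rw [add_zero]
    · rw [add_sub_cancel_left]
  have hecl : ∀ k v x' u, e k v x' (cl u) = e k v x' u := by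
    intro k v x' u
    simp only [he, cl_of_inCube (cl_inCube u)]
  -- the loops
  have hG : ∀ k : ℤ, ∃ G : ℝ → (Fin m → ℝ) → (Fin (q + 1) → ℝ) → S,
      Hmt C2 p (fun x' w => e k (3 * clip (w 0) - 1) x' (Fin.tail w)) G ∧
        ∀ x w, G 1 x w = p := by
    intro k
    refine hK2 _ ?_ ?_ ?_
    · intro w
      refine LipN.mono (hex k _ _) ?_
      linarith
    · intro x' w w'
      have h1 := hev k x' (Fin.tail w) (3 * clip (w 0) - 1) (3 * clip (w' 0) - 1)
      have h2 := heu k (3 * clip (w' 0) - 1) x' (Fin.tail w) (Fin.tail w')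
      simp only at h1 h2
      have h3 : |3 * clip (w 0) - 1 - (3 * clip (w' 0) - 1)| ≤ 3 * dist w w' := by
        rw [show 3 * clip (w 0) - 1 - (3 * clip (w' 0) - 1) = 3 * (clip (w 0) - clip (w' 0)) by ring,
          abs_mul, abs_of_pos (by norm_num : (0 : ℝ) < 3)]
        refine mul_le_mul_of_nonneg_left ((clip_lip _ _).trans ?_) (by norm_num)
        rw [← Real.dist_eq]
        exact dist_le_pi_dist w w' 0
      have h4 := tail_dist w w'
      calc dist (e k (3 * clip (w 0) - 1) x' (Fin.tail w)) (e k (3 * clip (w' 0) - 1) x' (Fin.tail w'))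
          ≤ _ := dist_triangle _ (e k (3 * clip (w' 0) - 1) x' (Fin.tail w)) _
        _ ≤ L * (3 * dist w w') + L * dist w w' :=
            add_le_add (h1.trans (mul_le_mul_of_nonneg_left h3 hL0))
              (h2.trans (mul_le_mul_of_nonneg_left h4 hL0))
        _ = 4 * L * dist w w' := by ring
    · intro x' w hw
      rcases bd_cases w hw with (h | h) | h
      · rw [h, clip_zero, show (3 : ℝ) * 0 - 1 = -1 by ring, he_neg k 1 _ _ zero_le_one, clip_one,
          hg1]
      · rw [h, clip_one, show (3 : ℝ) * 1 - 1 = 1 + 1 by ring, he_pos k 1 _ _ zero_le_one, clip_one,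
          hg1]
      · exact heb _ _ _ _ h
  choose G hG hG1 using hG
  set F : ℤ → ℝ → ℝ → (Fin m → ℝ) → (Fin q → ℝ) → S := fun k s t x' u =>
    if t ≤ 1 / 2 then e k ((1 + 2 * clip (2 * t)) * s - clip (2 * t)) x' u
    else G k (clip (2 * t - 1)) x' (Fin.cons s (cl u)) with hF
  have hFs : ∀ k t x' u, Lip1 (3 * L + C2) (fun s => F k s t x' u) := by
    intro k t x' u x y
    simp only [hF]
    have c0 := clip_nonneg (2 * t)
    have c1 := clip_le_one (2 * t)
    have ha := abs_nonneg (x - y)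
    split_ifs with h
    · refine (hev k x' u _ _).trans ?_
      rw [show (1 + 2 * clip (2 * t)) * x - clip (2 * t) - ((1 + 2 * clip (2 * t)) * y - clip (2 * t)) =
        (1 + 2 * clip (2 * t)) * (x - y) by ring, abs_mul,
        abs_of_nonneg (by linarith : 0 ≤ 1 + 2 * clip (2 * t))]
      calc L * ((1 + 2 * clip (2 * t)) * |x - y|) ≤ L * (3 * |x - y|) := by gcongr; linarith
        _ ≤ (3 * L + C2) * |x - y| := by nlinarith [mul_nonneg hC2 ha]
    · refine ((hG k).lu _ _ _ _).trans ?_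
      calc C2 * dist (Fin.cons x (cl u) : Fin (q + 1) → ℝ) (Fin.cons y (cl u)) ≤ C2 * |x - y| :=
            mul_le_mul_of_nonneg_left (cons_dist_left _ _ _) hC2
        _ ≤ (3 * L + C2) * |x - y| := by nlinarith [mul_nonneg hL0 ha]
  have hFx : ∀ k s t u, LipN (L + C2) (fun x' => F k s t x' u) := by
    intro k s t u x y
    simp only [hF]
    have hd : 0 ≤ dist x y := dist_nonneg
    split_ifs with h
    · refine (hex k _ u x y).trans ?_
      nlinarith [mul_nonneg hC2 hd]
    · refine ((hG k).lx _ _ x y).trans ?_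
      nlinarith [mul_nonneg hL0 hd]
  have hFu : ∀ k s t x', LipN (L + C2) (fun u => F k s t x' u) := by
    intro k s t x' u w
    simp only [hF]
    have hd : 0 ≤ dist u w := dist_nonneg
    split_ifs with h
    · refine (heu k _ x' u w).trans ?_
      nlinarith [mul_nonneg hC2 hd]
    · refine ((hG k).lu _ _ _ _).trans ?_
      calc C2 * dist (Fin.cons s (cl u) : Fin (q + 1) → ℝ) (Fin.cons s (cl w)) ≤ C2 * dist u w :=
            mul_le_mul_of_nonneg_left ((cons_dist_right _ _ _).trans (cl_dist _ _)) hC2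
        _ ≤ (L + C2) * dist u w := by nlinarith [mul_nonneg hL0 hd]
  have hFt : ∀ k s x' u, 0 ≤ s → s ≤ 1 → Lip1 (2 * L + 2 * C2) (fun t => F k s t x' u) := by
    intro k s x' u hs hs1
    refine glue (1 / 2) ?_ ?_ ?_
    · intro x y
      have ha := abs_nonneg (x - y)
      refine (hev k x' u _ _).trans ?_
      have h1 := clip_lip (2 * x) (2 * y)
      rw [show 2 * x - 2 * y = 2 * (x - y) by ring, abs_mul, abs_of_pos (by norm_num : (0:ℝ) < 2)] at h1
      rw [show (1 + 2 * clip (2 * x)) * s - clip (2 * x) - ((1 + 2 * clip (2 * y)) * s - clip (2 * y)) =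
        (2 * s - 1) * (clip (2 * x) - clip (2 * y)) by ring, abs_mul]
      have h2 : |2 * s - 1| ≤ 1 := abs_le.2 ⟨by linarith, by linarith⟩
      calc L * (|2 * s - 1| * |clip (2 * x) - clip (2 * y)|) ≤ L * (1 * (2 * |x - y|)) := by gcongr
        _ ≤ (2 * L + 2 * C2) * |x - y| := by nlinarith [mul_nonneg hC2 ha]
    · intro x y
      have ha := abs_nonneg (x - y)
      refine ((hG k).lt _ _ _ _).trans ?_
      have h1 := clip_lip (2 * x - 1) (2 * y - 1)
      rw [show 2 * x - 1 - (2 * y - 1) = 2 * (x - y) by ring, abs_mul, abs_of_pos (by norm_num : (0:ℝ) < 2)] at h1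
      calc C2 * |clip (2 * x - 1) - clip (2 * y - 1)| ≤ C2 * (2 * |x - y|) := by gcongr
        _ ≤ (2 * L + 2 * C2) * |x - y| := by nlinarith [mul_nonneg hL0 ha]
    · have hcube : InCube (Fin.cons s (cl u) : Fin (q + 1) → ℝ) := by
        intro i
        refine Fin.cases ?_ (fun j => ?_) i
        · simp only [Fin.cons_zero]; exact ⟨hs, hs1⟩
        · simp only [Fin.cons_succ]; exact cl_inCube u j
      rw [show (2 : ℝ) * (1 / 2) = 1 by norm_num, clip_one, sub_self, clip_zero,
        (hG k).start _ _ hcube]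
      simp only [Fin.cons_zero, Fin.tail_cons]
      rw [clip_of_mem hs hs1, hecl]
      congr 1; ring
  have hFm : ∀ k t x' u, F k 1 t x' u = F (k + 1) 0 t x' u := by
    intro k t x' u
    simp only [hF]
    have c0 := clip_nonneg (2 * t)
    split_ifs with h
    · rw [show (1 + 2 * clip (2 * t)) * 1 - clip (2 * t) = 1 + clip (2 * t) by ring, he_pos k _ _ _ c0,
        show (1 + 2 * clip (2 * t)) * 0 - clip (2 * t) = -clip (2 * t) by ring, he_neg _ _ _ _ c0]
    · rw [(hG k).bd _ _ _ (bd_cons_zero 1 _ (Or.inr rfl)),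
        (hG (k + 1)).bd _ _ _ (bd_cons_zero 0 _ (Or.inl rfl))]
  refine ⟨fun t x u => F ⌊x 0⌋ (Int.fract (x 0)) t (Fin.tail x) u, ⟨?_, ?_, ?_, ?_, ?_⟩, ?_⟩
  · intro t u x y
    have h1 : Lip1 (3 * L + C2) (fun v : ℝ => F ⌊v⌋ (Int.fract v) t (Fin.tail x) u) :=
      glue_floor (f := fun k s => F k s t (Fin.tail x) u) (fun k => hFs k t _ u)
        (fun k => hFm k t _ u)
    have h2 := h1 (x 0) (y 0)
    have h3 := hFx ⌊y 0⌋ (Int.fract (y 0)) t u (Fin.tail x) (Fin.tail y)
    simp only at h2 h3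
    have h4 : |x 0 - y 0| ≤ dist x y := by
      rw [← Real.dist_eq]; exact dist_le_pi_dist x y 0
    have h5 := tail_dist x y
    calc dist (F ⌊x 0⌋ (Int.fract (x 0)) t (Fin.tail x) u)
          (F ⌊y 0⌋ (Int.fract (y 0)) t (Fin.tail y) u)
        ≤ _ := dist_triangle _ (F ⌊y 0⌋ (Int.fract (y 0)) t (Fin.tail x) u) _
      _ ≤ (3 * L + C2) * dist x y + (L + C2) * dist x y :=
          add_le_add (h2.trans (mul_le_mul_of_nonneg_left h4 (by positivity)))
            (h3.trans (mul_le_mul_of_nonneg_left h5 (by positivity)))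
      _ = (4 * L + 2 * C2) * dist x y := by ring
  · intro t x
    exact LipN.mono (hFu _ _ _ _) (by linarith)
  · intro x u a b
    refine (hFt ⌊x 0⌋ (Int.fract (x 0)) (Fin.tail x) u (Int.fract_nonneg _)
      (Int.fract_lt_one _).le a b).trans ?_
    exact mul_le_mul_of_nonneg_right (by linarith) (abs_nonneg _)
  · intro t x u hu
    simp only [hF]
    split_ifs
    · exact heb _ _ _ _ hu
    · exact (hG _).bd _ _ _ (bd_cons_right _ _ (cl_bd hu))
  · intro x u hu
    simp only [hF]
    rw [if_pos (by norm_num), mul_zero, clip_zero, mul_zero, add_zero, one_mul, sub_zero,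
      he_mid _ _ _ _ (Int.fract_nonneg _) (Int.fract_lt_one _).le, Int.floor_add_fract,
      cl_of_inCube hu, Fin.cons_self_tail]
  · intro x u
    simp only [hF]
    rw [if_neg (by norm_num), show (2 : ℝ) * 1 - 1 = 1 by norm_num, clip_one, hG1]

end Pool.Agent.H261R3.LN
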